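import Mathlib

/-!
# The automorphism group of the tree of Young–Fibonacci paths

Words over `{1, 2}` are lists of letters, the leftmost letter first.  A saturated chain
`∅ = x_0 ⋖ x_1 ⋖ ⋯ ⋖ x_n` of the Young–Fibonacci lattice, a vertex of the tree `T`, is written as the
list `[x_n, …, x_1, x_0]`.
-/

set_option autoImplicit false

namespace Pool.Agent.Results.MP_ac28de_co.PathTreeAutomorphisms

/-- The two letters. -/
inductive Letter
  | one
  | two
  deriving DecidableEq

open Letter

/-- The elements of the Young–Fibonacci lattice: words over `{1, 2}`. -/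
abbrev Word := List Letter

/-- `y` covers `x`: either `x` is obtained from `y` by deleting the leftmost letter `1` of `y`, or `x` is
obtained from `y` by replacing by `1` one letter `2` of `y` such that all letters to the left of it are
`2`. -/
def Cov (x y : Word) : Prop :=
  (∃ s t : Word, (∀ a ∈ s, a = two) ∧ y = s ++ one :: t ∧ x = s ++ t) ∨
  (∃ s t : Word, (∀ a ∈ s, a = two) ∧ y = s ++ two :: t ∧ x = s ++ one :: t)

/-- The list `[x_n, …, x_0]` is a saturated chain `∅ = x_0 ⋖ x_1 ⋖ ⋯ ⋖ x_n`. -/
inductive IsPath : List Word → Prop
  | root : IsPath [[]]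
  | step {x y : Word} {l : List Word} : IsPath (x :: l) → Cov x y → IsPath (y :: x :: l)

/-- The vertices of the tree `T`. -/
abbrev Vertex : Type := {c : List Word // IsPath c}

/-- The tree `T` of the upward paths: a chain `x_0 ⋖ ⋯ ⋖ x_n` with `n ≥ 1` is adjacent to the chain
`x_0 ⋖ ⋯ ⋖ x_{n-1}`, and there are no other edges. -/
def T : SimpleGraph Vertex where
  Adj c d := (∃ y, d.1 = y :: c.1) ∨ ∃ y, c.1 = y :: d.1
  symm := ⟨fun _ _ h => h.symm⟩
  loopless := ⟨fun c h => by
    rcases h with ⟨y, h⟩ | ⟨y, h⟩
    · exact absurd (congrArg List.length h) (by simp)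
    · exact absurd (congrArg List.length h) (by simp)⟩

/-- `x` is one of the words `2^k 1`, `k ≥ 0`. -/
def IsSwitch (x : Word) : Prop := ∃ k : ℕ, x = List.replicate k two ++ [one]

/-- The twin of a word: `u2` and `u11` are exchanged for all `u`; all other words (the empty word, `1`
and the words `u21`) are fixed. -/
def twin : Word → Word
  | [] => []
  | [two] => [one, one]
  | [one, one] => [two]
  | a :: w => a :: twin w

/-- The switch vertices: the chains `x_0 ⋖ ⋯ ⋖ x_n` with `x_n = 2^k 1` for some `k`. -/
def Switches : Set (List Word) := {c | IsPath c ∧ ∃ x l, c = x :: l ∧ IsSwitch x}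

/-- For a chain `x_0 ⋖ ⋯ ⋖ x_n` let `j ≤ n` be the last index such that `x_j` is a word `2^k 1`.
`Twisted S` says that there is such a `j` and `x_0 ⋖ ⋯ ⋖ x_j` is in `S`. -/
def Twisted (S : Set (List Word)) : List Word → Prop
  | [] => False
  | x :: l => (IsSwitch x ∧ x :: l ∈ S) ∨ (¬ IsSwitch x ∧ Twisted S l)

open Classical in
/-- The map `α_S`: in the chain `x_0 ⋖ ⋯ ⋖ x_n` every `x_i` such that `x_0 ⋖ ⋯ ⋖ x_{i-1}` is twisted is
replaced by its twin. -/
noncomputable def alpha (S : Set (List Word)) : List Word → List Word
  | [] => []
  | y :: l => (if Twisted S l then twin y else y) :: alpha S l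

/-! ### Words -/

/-- the words covering `x` -/
def up : Word → List Word
  | [] => [[one]]
  | one :: s => [one :: one :: s, two :: s]
  | two :: s => (one :: two :: s) :: (up s).map (two :: ·)

theorem cov_iff (x y : Word) : Cov x y ↔ y ∈ up x := by
  induction x generalizing y with
  | nil =>
    constructor
    · rintro (⟨s, t, hs, rfl, h⟩ | ⟨s, t, hs, rfl, h⟩)
      · obtain ⟨rfl, rfl⟩ := List.append_eq_nil_iff.1 h.symm
        simp [up]
      · simp at h
    · intro h
      simp only [up, List.mem_singleton] at h
      subst h
      exact Or.inl ⟨[], [], by simp, rfl, rfl⟩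
  | cons a x ih =>
    cases a with
    | one =>
      constructor
      · rintro (⟨s, t, hs, rfl, h⟩ | ⟨s, t, hs, rfl, h⟩)
        · cases s with
          | nil =>
            simp only [List.nil_append] at h
            subst h
            simp [up]
          | cons b s =>
            simp only [List.cons_append, List.cons.injEq] at h
            have := hs b (by simp)
            rw [this] at h
            exact absurd h.1 (by decide)
        · cases s with
          | nil =>
            simp only [List.nil_append, List.cons.injEq, true_and] at h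
            subst h
            simp [up]
          | cons b s =>
            simp only [List.cons_append, List.cons.injEq] at h
            have := hs b (by simp)
            rw [this] at h
            exact absurd h.1 (by decide)
      · intro h
        simp only [up, List.mem_cons, List.not_mem_nil, or_false] at h
        rcases h with rfl | rfl
        · exact Or.inl ⟨[], one :: x, by simp, rfl, rfl⟩
        · exact Or.inr ⟨[], x, by simp, rfl, rfl⟩
    | two =>
      constructor
      · rintro (⟨s, t, hs, rfl, h⟩ | ⟨s, t, hs, rfl, h⟩)
        · cases s with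
          | nil =>
            simp only [List.nil_append] at h
            subst h
            simp [up]
          | cons b s =>
            simp only [List.cons_append, List.cons.injEq] at h
            obtain ⟨rfl, h⟩ := h
            have h1 : s ++ one :: t ∈ up x :=
              (ih _).1 (Or.inl ⟨s, t, fun a ha => hs a (by simp [ha]), rfl, h⟩)
            simp only [up, List.mem_cons, List.mem_map, List.cons_append]
            exact Or.inr ⟨_, h1, rfl⟩
        · cases s with
          | nil => simp at h
          | cons b s =>
            simp only [List.cons_append, List.cons.injEq] at h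
            obtain ⟨rfl, h⟩ := h
            have h1 : s ++ two :: t ∈ up x :=
              (ih _).1 (Or.inr ⟨s, t, fun a ha => hs a (by simp [ha]), rfl, h⟩)
            simp only [up, List.mem_cons, List.mem_map, List.cons_append]
            exact Or.inr ⟨_, h1, rfl⟩
      · intro h
        simp only [up, List.mem_cons, List.mem_map] at h
        rcases h with rfl | ⟨z, hz, rfl⟩
        · exact Or.inl ⟨[], two :: x, by simp, rfl, rfl⟩
        · rcases (ih z).2 hz with ⟨s, t, hs, rfl, h⟩ | ⟨s, t, hs, rfl, h⟩
          · refine Or.inl ⟨two :: s, t, ?_, rfl, by simp [h]⟩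
            simpa using hs
          · refine Or.inr ⟨two :: s, t, ?_, rfl, by simp [h]⟩
            simpa using hs

theorem up_ne_nil {x y : Word} (h : y ∈ up x) : y ≠ [] := by
  rintro rfl
  cases x with
  | nil => simp [up] at h
  | cons a x => cases a <;> simp [up] at h

theorem isSwitch_nil : ¬ IsSwitch [] := by
  rintro ⟨k, hk⟩
  simp at hk

theorem isSwitch_one (s : Word) : IsSwitch (one :: s) ↔ s = [] := by
  constructor
  · rintro ⟨k, hk⟩
    cases k with
    | zero => simpa using hk
    | succ k => simp [List.replicate_succ] at hk
  · rintro rfl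
    exact ⟨0, rfl⟩

theorem isSwitch_two (s : Word) : IsSwitch (two :: s) ↔ IsSwitch s := by
  constructor
  · rintro ⟨k, hk⟩
    cases k with
    | zero => simp at hk
    | succ k => exact ⟨k, by simpa [List.replicate_succ] using hk⟩
  · rintro ⟨k, rfl⟩
    exact ⟨k + 1, by simp [List.replicate_succ]⟩

theorem twin_two_cons {s : Word} (h : s ≠ []) : twin (two :: s) = two :: twin s := by
  cases s with
  | nil => exact absurd rfl h
  | cons a s => simp [twin]

theorem twin_one_cons {s : Word} (h : s ≠ [one]) : twin (one :: s) = one :: twin s := by
  rcases s with _ | ⟨a, s⟩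
  · simp [twin]
  · rcases s with _ | ⟨b, s⟩
    · cases a
      · exact absurd rfl h
      · simp [twin]
    · simp [twin]

theorem twin_ne_nil {s : Word} (h : s ≠ []) : twin s ≠ [] := by
  rcases s with _ | ⟨a, s⟩
  · exact absurd rfl h
  · cases a with
    | one =>
      by_cases h1 : s = [one]
      · subst h1; simp [twin]
      · rw [twin_one_cons h1]; simp
    | two =>
      by_cases h1 : s = []
      · subst h1; simp [twin]
      · rw [twin_two_cons h1]; simp

theorem twin_eq_one {s : Word} (h : twin s = [one]) : s = [one] := by
  rcases s with _ | ⟨a, s⟩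
  · simp [twin] at h
  · cases a with
    | one =>
      by_cases h1 : s = [one]
      · subst h1; simp [twin] at h
      · rw [twin_one_cons h1] at h
        simp only [List.cons.injEq, true_and] at h
        by_contra h2
        exact twin_ne_nil (s := s) (by rintro rfl; exact h2 rfl) h
    | two =>
      by_cases h1 : s = []
      · subst h1; simp [twin] at h
      · rw [twin_two_cons h1] at h
        simp at h

theorem twin_twin (s : Word) : twin (twin s) = s := by
  induction s with
  | nil => simp [twin]
  | cons a s ih =>
    cases a with
    | one =>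
      by_cases h1 : s = [one]
      · subst h1; simp [twin]
      · rw [twin_one_cons h1, twin_one_cons (fun h => h1 (twin_eq_one h)), ih]
    | two =>
      by_cases h1 : s = []
      · subst h1; simp [twin]
      · rw [twin_two_cons h1, twin_two_cons (twin_ne_nil h1), ih]

theorem isSwitch_ne_nil {s : Word} (h : IsSwitch s) : s ≠ [] := by
  rintro rfl
  exact isSwitch_nil h

theorem twin_of_isSwitch {s : Word} (h : IsSwitch s) : twin s = s := by
  induction s with
  | nil => rfl
  | cons a s ih =>
    cases a with
    | one =>
      rw [isSwitch_one] at h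
      subst h
      simp [twin]
    | two =>
      rw [isSwitch_two] at h
      rw [twin_two_cons (isSwitch_ne_nil h), ih h]

theorem isSwitch_twin (s : Word) : IsSwitch (twin s) ↔ IsSwitch s := by
  constructor
  · intro h
    have := twin_of_isSwitch h
    rw [twin_twin] at this
    rwa [this]
  · intro h
    rwa [twin_of_isSwitch h]

/-- twins of the covers -/
theorem twin_mem_up {x y : Word} (hx : ¬ IsSwitch x) (hy : y ∈ up x) : twin y ∈ up (twin x) := by
  induction x generalizing y with
  | nil =>
    simp only [up, List.mem_singleton] at hy
    subst hy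
    simp [twin, up]
  | cons a s ih =>
    cases a with
    | one =>
      rw [isSwitch_one] at hx
      by_cases h1 : s = [one]
      · subst h1
        simp only [up, List.mem_cons, List.not_mem_nil, or_false] at hy
        rcases hy with rfl | rfl <;> simp [twin, up]
      · rw [twin_one_cons h1]
        simp only [up, List.mem_cons, List.not_mem_nil, or_false] at hy ⊢
        rcases hy with rfl | rfl
        · left
          rw [twin_one_cons (by simpa using hx), twin_one_cons h1]
        · right
          rw [twin_two_cons hx]
    | two =>
      rw [isSwitch_two] at hx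
      simp only [up, List.mem_cons, List.mem_map] at hy
      by_cases h1 : s = []
      · subst h1
        simp only [up, List.mem_singleton, exists_eq_left] at hy
        rcases hy with rfl | rfl <;> simp [twin, up]
      · rw [twin_two_cons h1]
        simp only [up, List.mem_cons, List.mem_map]
        rcases hy with rfl | ⟨z, hz, rfl⟩
        · left
          rw [twin_one_cons (by simp), twin_two_cons h1]
        · right
          exact ⟨_, ih hx hz, (twin_two_cons (up_ne_nil hz)).symm⟩

theorem twin_mem_up' {x y : Word} (hx : IsSwitch x) (hy : y ∈ up x) : twin y ∈ up x := by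
  induction x generalizing y with
  | nil => exact absurd hx isSwitch_nil
  | cons a s ih =>
    cases a with
    | one =>
      rw [isSwitch_one] at hx
      subst hx
      simp only [up, List.mem_cons, List.not_mem_nil, or_false] at hy
      rcases hy with rfl | rfl <;> simp [twin, up]
    | two =>
      rw [isSwitch_two] at hx
      simp only [up, List.mem_cons, List.mem_map] at hy ⊢
      rcases hy with rfl | ⟨z, hz, rfl⟩
      · left
        rw [twin_one_cons (by simp), twin_two_cons (isSwitch_ne_nil hx), twin_of_isSwitch hx]
      · right
        exact ⟨_, ih hx hz, (twin_two_cons (up_ne_nil hz)).symm⟩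

/-- the word `2^{k+1}` above `2^k 1` -/
theorem replicate_mem_up (k : ℕ) :
    List.replicate (k + 1) two ∈ up (List.replicate k two ++ [one]) := by
  induction k with
  | zero => simp [up]
  | succ k ih =>
    rw [List.replicate_succ (n := k), List.cons_append]
    simp only [up, List.mem_cons, List.mem_map]
    exact Or.inr ⟨_, ih, by rw [← List.replicate_succ]⟩

theorem twin_replicate (k : ℕ) : twin (List.replicate (k + 1) two) =
    List.replicate k two ++ [one, one] := by
  induction k with
  | zero => simp [twin]
  | succ k ih =>
    rw [List.replicate_succ, twin_two_cons (by simp), ih, List.replicate_succ (n := k)]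
    rfl

theorem twin_replicate_ne (k : ℕ) : twin (List.replicate (k + 1) two) ≠
    List.replicate (k + 1) two := by
  rw [twin_replicate]
  intro h
  have := congrArg List.length h
  simp at this

/-- among the covers of `2^k 1`, only `2^{k+1}` and its twin `2^k 1 1` are not their own twins -/
theorem eq_of_twin_ne {k : ℕ} {y : Word} (hy : y ∈ up (List.replicate k two ++ [one]))
    (h : twin y ≠ y) :
    y = List.replicate (k + 1) two ∨ y = twin (List.replicate (k + 1) two) := by
  induction k generalizing y with
  | zero =>
    simp only [List.replicate_zero, List.nil_append, up, List.mem_cons, List.not_mem_nil,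
      or_false] at hy
    rcases hy with rfl | rfl
    · right; simp [twin]
    · left; rfl
  | succ k ih =>
    rw [List.replicate_succ, List.cons_append] at hy
    simp only [up, List.mem_cons, List.mem_map] at hy
    have hsw : IsSwitch (List.replicate k two ++ [one]) := ⟨k, rfl⟩
    rcases hy with rfl | ⟨z, hz, rfl⟩
    · exfalso
      apply h
      rw [twin_one_cons (by simp), twin_two_cons (by simp), twin_of_isSwitch hsw]
    · have hz0 : z ≠ [] := up_ne_nil hz
      have h2 : twin z ≠ z := by
        intro h3
        apply h
        rw [twin_two_cons hz0, h3]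
      rcases ih hz h2 with h3 | h3
      · left
        rw [h3, ← List.replicate_succ]
      · right
        rw [h3, List.replicate_succ (n := k + 1), twin_two_cons (by simp)]

/-- the number of the covers -/
def num (x : Word) : ℕ := (up x).length

theorem num_nil : num [] = 1 := rfl
theorem num_one (s : Word) : num (one :: s) = 2 := rfl
theorem num_two (s : Word) : num (two :: s) = num s + 1 := by simp [num, up]

theorem num_pos (s : Word) : 1 ≤ num s := by
  rcases s with _ | ⟨a, s⟩
  · exact le_refl _
  · cases a with
    | one => rw [num_one]; omega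
    | two => rw [num_two]; omega

theorem two_le_num {s : Word} (h : s ≠ []) : 2 ≤ num s := by
  rcases s with _ | ⟨a, s⟩
  · exact absurd rfl h
  · cases a with
    | one => rw [num_one]
    | two => rw [num_two]; have := num_pos s; omega

theorem num_twin (s : Word) : num (twin s) = num s := by
  induction s with
  | nil => rfl
  | cons a s ih =>
    cases a with
    | one =>
      by_cases h1 : s = [one]
      · subst h1; rfl
      · rw [twin_one_cons h1, num_one, num_one]
    | two =>
      by_cases h1 : s = []
      · subst h1; rfl
      · rw [twin_two_cons h1, num_two, num_two, ih]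

/-- the covers of a word are almost determined by the numbers of their covers -/
theorem eq_of_num_eq {x y z : Word} (hy : y ∈ up x) (hz : z ∈ up x) (h : num y = num z) :
    z = y ∨ (IsSwitch x ∧ z = twin y) := by
  induction x generalizing y z with
  | nil =>
    simp only [up, List.mem_singleton] at hy hz
    left
    rw [hy, hz]
  | cons a s ih =>
    cases a with
    | one =>
      rw [isSwitch_one]
      simp only [up, List.mem_cons, List.not_mem_nil, or_false] at hy hz
      by_cases hs : s = []
      · subst hs
        rcases hy with rfl | rfl <;> rcases hz with rfl | rfl <;> simp [twin]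
      · have h1 := two_le_num hs
        rcases hy with rfl | rfl <;> rcases hz with rfl | rfl
        · left; rfl
        · rw [num_one, num_two] at h; omega
        · rw [num_one, num_two] at h; omega
        · left; rfl
    | two =>
      rw [isSwitch_two]
      simp only [up, List.mem_cons, List.mem_map] at hy hz
      rcases hy with rfl | ⟨y', hy', rfl⟩ <;> rcases hz with rfl | ⟨z', hz', rfl⟩
      · left; rfl
      · have := two_le_num (up_ne_nil hz')
        rw [num_one, num_two] at h; omega
      · have := two_le_num (up_ne_nil hy')
        rw [num_one, num_two] at h; omega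
      · rw [num_two, num_two] at h
        rcases ih hy' hz' (by omega) with h1 | ⟨h1, h2⟩
        · left; rw [h1]
        · right
          exact ⟨h1, by rw [h2, twin_two_cons (up_ne_nil hy')]⟩

theorem nodup_up (x : Word) : (up x).Nodup := by
  induction x with
  | nil => simp [up]
  | cons a s ih =>
    cases a with
    | one => simp [up]
    | two =>
      simp only [up, List.nodup_cons, List.mem_map, List.cons.injEq, reduceCtorEq, false_and,
        and_false, exists_false, not_false_eq_true, true_and]
      exact ih.map (fun a b h => by simpa using h)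

/-! ### The maps `α_S` -/

section
variable (S : Set (List Word))

theorem twisted_switch {x : Word} {l : List Word} (h : IsSwitch x) :
    Twisted S (x :: l) ↔ x :: l ∈ S := by simp [Twisted, h]

theorem twisted_not_switch {x : Word} {l : List Word} (h : ¬ IsSwitch x) :
    Twisted S (x :: l) ↔ Twisted S l := by simp [Twisted, h]

open Classical in
/-- the inverse of `α_S` -/
noncomputable def beta : List Word → List Word
  | [] => []
  | y :: l => (if Twisted S (beta l) then twin y else y) :: beta l

open Classical in
theorem alpha_cons (y : Word) (l : List Word) :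
    alpha S (y :: l) = (if Twisted S l then twin y else y) :: alpha S l := rfl

open Classical in
theorem beta_cons (y : Word) (l : List Word) :
    beta S (y :: l) = (if Twisted S (beta S l) then twin y else y) :: beta S l := rfl

theorem alpha_beta (l : List Word) : alpha S (beta S l) = l := by
  induction l with
  | nil => rfl
  | cons y l ih =>
    rw [beta_cons, alpha_cons, ih]
    split_ifs <;> simp [twin_twin]

theorem beta_alpha (l : List Word) : beta S (alpha S l) = l := by
  induction l with
  | nil => rfl
  | cons y l ih =>
    rw [alpha_cons, beta_cons, ih]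
    split_ifs <;> simp [twin_twin]

theorem alpha_isPath {c : List Word} (h : IsPath c) : IsPath (alpha S c) := by
  induction h with
  | root =>
    rw [alpha_cons]
    split_ifs <;> exact IsPath.root
  | @step x y l h hc ih =>
    rw [alpha_cons] at ih
    rw [alpha_cons, alpha_cons]
    refine IsPath.step ih ?_
    rw [cov_iff] at hc ⊢
    by_cases hx : IsSwitch x
    · rw [twin_of_isSwitch hx, ite_self]
      split_ifs
      · exact twin_mem_up' hx hc
      · exact hc
    · by_cases ht : Twisted S l
      · rw [if_pos ht, if_pos ((twisted_not_switch S hx).2 ht)]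
        exact twin_mem_up hx hc
      · rw [if_neg ht, if_neg (fun h1 => ht ((twisted_not_switch S hx).1 h1))]
        exact hc

open Classical in
theorem beta_isPath {c : List Word} (h : IsPath c) : IsPath (beta S c) := by
  induction h with
  | root =>
    rw [beta_cons]
    split_ifs <;> exact IsPath.root
  | @step x y l h hc ih =>
    rw [beta_cons]
    have hm : beta S (x :: l) = (if Twisted S (beta S l) then twin x else x) :: beta S l := rfl
    generalize beta S (x :: l) = m at ih hm ⊢
    rw [cov_iff] at hc
    by_cases ht : Twisted S (beta S l)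
    · rw [if_pos ht] at hm
      subst hm
      refine IsPath.step ih ?_
      rw [cov_iff]
      by_cases hx : IsSwitch x
      · rw [twin_of_isSwitch hx]
        split_ifs
        · exact twin_mem_up' hx hc
        · exact hc
      · rw [if_pos ((twisted_not_switch S (by rwa [isSwitch_twin])).2 ht)]
        exact twin_mem_up hx hc
    · rw [if_neg ht] at hm
      subst hm
      refine IsPath.step ih ?_
      rw [cov_iff]
      by_cases hx : IsSwitch x
      · split_ifs
        · exact twin_mem_up' hx hc
        · exact hc
      · rw [if_neg (fun h1 => ht ((twisted_not_switch S hx).1 h1))]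
        exact hc

/-- `α_S` as an automorphism of `T` -/
noncomputable def Phi : T ≃g T where
  toFun c := ⟨alpha S c.1, alpha_isPath S c.2⟩
  invFun c := ⟨beta S c.1, beta_isPath S c.2⟩
  left_inv c := Subtype.ext (beta_alpha S c.1)
  right_inv c := Subtype.ext (alpha_beta S c.1)
  map_rel_iff' := by
    have key : ∀ c d : Vertex, (∃ y, alpha S d.1 = y :: alpha S c.1) ↔ ∃ y, d.1 = y :: c.1 := by
      intro c d
      constructor
      · rintro ⟨y, hy⟩
        have h1 := congrArg (beta S) hy
        rw [beta_alpha, beta_cons, beta_alpha] at h1
        exact ⟨_, h1⟩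
      · rintro ⟨y, hy⟩
        rw [hy]
        exact ⟨_, rfl⟩
    intro c d
    exact or_congr (key c d) (key d c)

end

/-! ### All automorphisms -/

theorem isPath_ne_nil {c : List Word} (h : IsPath c) : c ≠ [] := by
  cases h <;> simp

theorem isPath_tail {y : Word} {c : List Word} (h : IsPath (y :: c)) (hc : c ≠ []) : IsPath c := by
  cases h with
  | root => exact absurd rfl hc
  | step h _ => exact h

theorem cov_of_isPath {x y : Word} {l : List Word} (h : IsPath (y :: x :: l)) : y ∈ up x := by
  cases h with
  | step h hc => exact (cov_iff _ _).1 hc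

theorem up_nonempty (x : Word) : ∃ y, y ∈ up x := by
  rcases x with _ | ⟨a, s⟩
  · exact ⟨_, by simp [up]; rfl⟩
  · cases a
    · exact ⟨one :: one :: s, by simp [up]⟩
    · exact ⟨one :: two :: s, by simp [up]⟩

section
variable (φ : T ≃g T)

/-- the root -/
def rt : Vertex := ⟨[[]], IsPath.root⟩

theorem adj_rt {d : Vertex} (h : T.Adj rt d) : d.1 = [[one], []] := by
  rcases h with ⟨y, hy⟩ | ⟨y, hy⟩
  · have h1 := d.2
    rw [hy] at h1
    have h2 := cov_of_isPath (x := []) (l := []) h1
    simp only [up, List.mem_singleton] at h2
    rw [hy, h2]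
    rfl
  · have h1 : d.1 = [] := by
      have : ([[]] : List Word) = y :: d.1 := hy
      simpa using (List.cons.inj this).2.symm
    exact absurd h1 (isPath_ne_nil d.2)

theorem phi_rt : φ rt = rt := by
  obtain ⟨⟨c, hc⟩, hcd⟩ : ∃ c, c = φ rt := ⟨_, rfl⟩
  rw [← hcd]
  cases hc with
  | root => rfl
  | @step x y l h hxy =>
    exfalso
    have hc : IsPath (y :: x :: l) := IsPath.step h hxy
    obtain ⟨z, hz⟩ := up_nonempty y
    have hz' : IsPath (z :: y :: x :: l) := IsPath.step hc ((cov_iff _ _).2 hz)
    have h1 : T.Adj (φ rt) ⟨x :: l, h⟩ := by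
      rw [← hcd]
      exact Or.inr ⟨y, rfl⟩
    have h2 : T.Adj (φ rt) ⟨z :: y :: x :: l, hz'⟩ := by
      rw [← hcd]
      exact Or.inl ⟨z, rfl⟩
    have h3 : ∀ d, T.Adj (φ rt) d → T.Adj rt (φ.symm d) := by
      intro d hd
      rw [← φ.map_rel_iff]
      simpa using hd
    have h4 := adj_rt (h3 _ h1)
    have h5 := adj_rt (h3 _ h2)
    have h6 : φ.symm ⟨x :: l, h⟩ = φ.symm ⟨z :: y :: x :: l, hz'⟩ := Subtype.ext (h4.trans h5.symm)
    have h7 := φ.symm.injective h6
    have h8 := congrArg (fun v : Vertex => v.1.length) h7
    simp at h8

theorem child (c d : Vertex) (h : ∃ y, d.1 = y :: c.1) : ∃ y, (φ d).1 = y :: (φ c).1 := by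
  obtain ⟨c, hc⟩ := c
  induction hc generalizing d with
  | root =>
    have h1 : T.Adj rt d := Or.inl h
    have h2 : T.Adj (φ rt) (φ d) := φ.map_rel_iff.2 h1
    rcases h2 with h2 | ⟨y, hy⟩
    · exact h2
    · exfalso
      rw [phi_rt] at hy
      have : ([[]] : List Word) = y :: (φ d).1 := hy
      have h3 : (φ d).1 = [] := by simpa using (List.cons.inj this).2.symm
      exact isPath_ne_nil (φ d).2 h3
  | @step x y l hl hxy ih =>
    have hc : IsPath (y :: x :: l) := IsPath.step hl hxy
    have h1 : T.Adj ⟨_, hc⟩ d := Or.inl h
    have h2 : T.Adj (φ ⟨_, hc⟩) (φ d) := φ.map_rel_iff.2 h1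
    rcases h2 with h2 | ⟨z, hz⟩
    · exact h2
    · exfalso
      obtain ⟨w, hw⟩ := ih ⟨_, hc⟩ ⟨y, rfl⟩
      rw [hw] at hz
      have h3 : (φ ⟨x :: l, hl⟩).1 = (φ d).1 := (List.cons.inj hz).2
      have h4 : (⟨x :: l, hl⟩ : Vertex) = d := φ.injective (Subtype.ext h3)
      obtain ⟨v, hv⟩ := h
      rw [← h4] at hv
      have := congrArg List.length hv
      simp at this

theorem child_iff (c d : Vertex) : (∃ y, d.1 = y :: c.1) ↔ ∃ y, (φ d).1 = y :: (φ c).1 := by
  refine ⟨child φ c d, fun h => ?_⟩
  have := child φ.symm (φ c) (φ d) h
  simpa using this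

theorem ncard_children {x : Word} {l : List Word} (h : IsPath (x :: l)) :
    {d : Vertex | ∃ y, d.1 = y :: x :: l}.ncard = num x := by
  have h1 : (Subtype.val '' {d : Vertex | ∃ y, d.1 = y :: x :: l}) =
      (fun y => y :: x :: l) '' {y | y ∈ up x} := by
    ext c
    constructor
    · rintro ⟨d, ⟨y, hy⟩, rfl⟩
      refine ⟨y, ?_, hy.symm⟩
      have := d.2
      rw [hy] at this
      exact cov_of_isPath this
    · rintro ⟨y, hy, rfl⟩
      exact ⟨⟨_, IsPath.step h ((cov_iff _ _).2 hy)⟩, ⟨y, rfl⟩, rfl⟩
  rw [← Set.ncard_image_of_injective _ Subtype.val_injective, h1,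
    Set.ncard_image_of_injective _ (fun a b hab => (List.cons.inj hab).1)]
  have h2 : {y | y ∈ up x} = ((up x).toFinset : Set Word) := by
    ext y; simp
  rw [h2, Set.ncard_coe_finset, List.toFinset_card_of_nodup (nodup_up x)]
  rfl

theorem num_eq {x x' : Word} {l l' : List Word} (h : IsPath (x :: l))
    (h' : (φ ⟨x :: l, h⟩).1 = x' :: l') : num x' = num x := by
  have hp : IsPath (x' :: l') := h' ▸ (φ ⟨x :: l, h⟩).2
  rw [← ncard_children h, ← ncard_children hp]
  have h1 : {d : Vertex | ∃ y, d.1 = y :: x' :: l'} =
      φ '' {d : Vertex | ∃ y, d.1 = y :: x :: l} := by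
    ext d
    constructor
    · rintro ⟨y, hy⟩
      refine ⟨φ.symm d, ?_, by simp⟩
      have := (child_iff φ ⟨x :: l, h⟩ (φ.symm d)).2 ⟨y, by rw [h']; simpa using hy⟩
      exact this
    · rintro ⟨d, hd, rfl⟩
      have := (child_iff φ ⟨x :: l, h⟩ d).1 hd
      rwa [h'] at this
  rw [h1, Set.ncard_image_of_injective _ φ.injective]

open Classical in
/-- the automorphism as a map of lists -/
noncomputable def fn (c : List Word) : List Word := if h : IsPath c then (φ ⟨c, h⟩).1 else c

theorem fn_eq {c : List Word} (h : IsPath c) : fn φ c = (φ ⟨c, h⟩).1 := by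
  rw [fn, dif_pos h]

/-- the switch vertices where the two branches are exchanged -/
def swset : Set (List Word) := {c | IsPath c ∧ ∃ (k : ℕ) (l : List Word),
  c = (List.replicate k two ++ [one]) :: l ∧
    fn φ (List.replicate (k + 1) two :: c) ≠ List.replicate (k + 1) two :: fn φ c}

theorem swset_subset : swset φ ⊆ Switches := by
  rintro c ⟨hc, k, l, h, -⟩
  exact ⟨hc, _, l, h, k, rfl⟩

theorem fn_inj {c d : List Word} (hc : IsPath c) (hd : IsPath d) (h : fn φ c = fn φ d) : c = d := by
  rw [fn_eq φ hc, fn_eq φ hd] at h
  exact congrArg Subtype.val (φ.injective (Subtype.ext h))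

theorem fn_child {y : Word} {c : List Word} (h : IsPath c) (h' : IsPath (y :: c)) :
    ∃ y', fn φ (y :: c) = y' :: fn φ c := by
  rw [fn_eq φ h, fn_eq φ h']
  exact child φ ⟨c, h⟩ ⟨y :: c, h'⟩ ⟨y, rfl⟩

theorem fn_isPath {c : List Word} (h : IsPath c) : IsPath (fn φ c) := by
  rw [fn_eq φ h]
  exact (φ ⟨c, h⟩).2

theorem fn_num {y y' : Word} {c c' : List Word} (h : IsPath (y :: c))
    (h' : fn φ (y :: c) = y' :: c') : num y' = num y := by
  rw [fn_eq φ h] at h'
  exact num_eq φ h h'

open Classical in
theorem fn_eq_alpha {c : List Word} (h : IsPath c) : fn φ c = alpha (swset φ) c := by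
  set S := swset φ with hS
  induction h with
  | root =>
    rw [fn_eq φ IsPath.root]
    have := congrArg Subtype.val (phi_rt φ)
    change (φ rt).1 = _
    rw [this]
    simp [rt, alpha, Twisted]
  | @step x y l hl hxy ih =>
    have hy := (cov_iff _ _).1 hxy
    have hc : IsPath (y :: x :: l) := IsPath.step hl hxy
    obtain ⟨y', hy'⟩ := fn_child φ hl hc
    have hp := fn_isPath φ hc
    have hnum := fn_num φ hc hy'
    rw [hy'] at hp
    rw [hy', ih]
    rw [ih, alpha_cons] at hp
    rw [alpha_cons S y]
    have hup := cov_of_isPath hp
    congr 1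
    by_cases hx : IsSwitch x
    · rw [twin_of_isSwitch hx, ite_self] at hup
      obtain ⟨k, hk⟩ := id hx
      have h2 : y' = y ∨ y' = twin y := by
        rcases eq_of_num_eq hy hup hnum.symm with h | ⟨-, h⟩
        · exact Or.inl h
        · exact Or.inr h
      by_cases hyy : twin y = y
      · rw [hyy] at h2 ⊢
        rw [ite_self]
        tauto
      · set z : Word := List.replicate (k + 1) two with hz
        have hzup : z ∈ up x := by rw [hk]; exact replicate_mem_up k
        have hzp : IsPath (z :: x :: l) := IsPath.step hl ((cov_iff _ _).2 hzup)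
        have htz : twin z ≠ z := twin_replicate_ne k
        obtain ⟨z', hz'⟩ := fn_child φ hl hzp
        have hmem : x :: l ∈ S ↔ fn φ (z :: x :: l) ≠ z :: fn φ (x :: l) := by
          rw [hS]
          constructor
          · rintro ⟨-, k', l', h3, h4⟩
            have h5 : k' = k := by
              have h6 := (List.cons.inj h3).1
              rw [hk] at h6
              have := congrArg List.length h6
              simpa using this.symm
            subst h5
            exact h4
          · intro h3
            exact ⟨hl, k, l, by rw [hk], h3⟩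
        have hz2 : z' = z ∨ z' = twin z := by
          have hzn := fn_num φ hzp hz'
          have hzq := fn_isPath φ hzp
          rw [hz', ih, alpha_cons] at hzq
          have hzq' := cov_of_isPath hzq
          rw [twin_of_isSwitch hx, ite_self] at hzq'
          rcases eq_of_num_eq hzup hzq' hzn.symm with h | ⟨-, h⟩
          · exact Or.inl h
          · exact Or.inr h
        have hcase : y = z ∨ y = twin z := eq_of_twin_ne (k := k) (by rw [← hk]; exact hy) hyy
        have hinj : y ≠ z → y' ≠ z' := by
          intro h3 h4
          rw [h4, ← hz'] at hy'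
          have := fn_inj φ hc hzp hy'
          exact h3 (List.cons.inj this).1
        rw [if_congr (twisted_switch S hx) rfl rfl]
        by_cases hSm : x :: l ∈ S
        · rw [if_pos hSm]
          have h3 : z' = twin z := by
            rcases hz2 with h | h
            · rw [h] at hz'
              exact absurd hz' (hmem.1 hSm)
            · exact h
          rcases hcase with h | h
          · rw [h] at hy' ⊢
            rw [hz'] at hy'
            rw [← (List.cons.inj hy').1, h3]
          · rw [h, twin_twin] at h2 ⊢
            rcases h2 with h2 | h2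
            · exact absurd (h2.trans h3.symm) (hinj (by rw [h]; exact htz))
            · exact h2
        · rw [if_neg hSm]
          have h3 : z' = z := by
            by_contra h4
            apply hSm
            rw [hmem, hz']
            intro h5
            exact h4 (List.cons.inj h5).1
          rcases hcase with h | h
          · rw [h] at hy' ⊢
            rw [hz'] at hy'
            rw [← (List.cons.inj hy').1, h3]
          · rcases h2 with h2 | h2
            · exact h2
            · rw [h, twin_twin] at h2
              exact absurd (h2.trans h3.symm) (hinj (by rw [h]; exact htz))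
    · rw [if_congr (twisted_not_switch S hx) rfl rfl]
      by_cases ht : Twisted S l
      · rw [if_pos ht] at hup ⊢
        rcases eq_of_num_eq (twin_mem_up hx hy) hup (by rw [num_twin, hnum]) with h | ⟨h, -⟩
        · exact h
        · rw [isSwitch_twin] at h
          exact absurd h hx
      · rw [if_neg ht] at hup ⊢
        rcases eq_of_num_eq hy hup hnum.symm with h | ⟨h, -⟩
        · exact h
        · exact absurd h hx

end

theorem twisted_comp (S S' : Set (List Word)) (l : List Word) :
    Twisted (symmDiff S' (alpha S' ⁻¹' S)) l ↔ Xor (Twisted S' l) (Twisted S (alpha S' l)) := by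
  induction l with
  | nil => simp [Twisted, alpha, Xor]
  | cons x l ih =>
    by_cases hx : IsSwitch x
    · have h1 : alpha S' (x :: l) = x :: alpha S' l := by
        rw [alpha_cons, twin_of_isSwitch hx, ite_self]
      rw [twisted_switch _ hx, twisted_switch _ hx, Set.mem_symmDiff, Set.mem_preimage]
      conv_rhs => rw [h1, twisted_switch _ hx, ← h1]
      rfl
    · rw [twisted_not_switch _ hx, twisted_not_switch _ hx, ih]
      rw [alpha_cons, twisted_not_switch]
      split_ifs
      · rwa [isSwitch_twin]
      · exact hx

theorem alpha_comp (S S' : Set (List Word)) (l : List Word) :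
    alpha (symmDiff S' (alpha S' ⁻¹' S)) l = alpha S (alpha S' l) := by
  induction l with
  | nil => rfl
  | cons y l ih =>
    rw [alpha_cons, alpha_cons, alpha_cons, ih]
    congr 1
    have h := twisted_comp S S' l
    by_cases h1 : Twisted S' l <;> by_cases h2 : Twisted S (alpha S' l) <;>
      simp [h, h1, h2, Xor, twin_twin]

theorem symmDiff_subset {S S' : Set (List Word)} (hS : S ⊆ Switches) (hS' : S' ⊆ Switches) :
    symmDiff S' (alpha S' ⁻¹' S) ⊆ Switches := by
  rintro c (⟨h, -⟩ | ⟨h, -⟩)
  · exact hS' h
  · obtain ⟨h1, x, l, h2, h3⟩ := hS h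
    refine ⟨by rw [← beta_alpha S' c]; exact beta_isPath S' h1, ?_⟩
    cases c with
    | nil => simp [alpha] at h2
    | cons y m =>
      refine ⟨y, m, rfl, ?_⟩
      rw [alpha_cons] at h2
      have h4 := (List.cons.inj h2).1
      rw [← h4] at h3
      split_ifs at h3
      · rwa [isSwitch_twin] at h3
      · exact h3

open Classical in
theorem phi_injective {S S' : Set (List Word)} (hS : S ⊆ Switches) (hS' : S' ⊆ Switches)
    (h : Phi S = Phi S') : S = S' := by
  have key : ∀ c ∈ Switches, (c ∈ S ↔ c ∈ S') := by
    rintro c ⟨hc, x, l, rfl, hx⟩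
    obtain ⟨k, hk⟩ := id hx
    have hz : List.replicate (k + 1) two ∈ up x := by rw [hk]; exact replicate_mem_up k
    have hp : IsPath (List.replicate (k + 1) two :: x :: l) := IsPath.step hc ((cov_iff _ _).2 hz)
    have h1 : alpha S (List.replicate (k + 1) two :: x :: l) =
        alpha S' (List.replicate (k + 1) two :: x :: l) :=
      congrArg Subtype.val (DFunLike.congr_fun h (⟨_, hp⟩ : Vertex))
    rw [alpha_cons, alpha_cons] at h1
    have h2 := (List.cons.inj h1).1
    have h3 := twin_replicate_ne k
    rw [if_congr (twisted_switch S hx) rfl rfl, if_congr (twisted_switch S' hx) rfl rfl] at h2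
    by_cases h4 : x :: l ∈ S <;> by_cases h5 : x :: l ∈ S' <;> simp only [h4, h5, if_true,
      if_false] at h2 ⊢
    · exact absurd h2 h3
    · exact absurd h2.symm h3
  ext c
  constructor
  · intro h1
    exact (key c (hS h1)).1 h1
  · intro h1
    exact (key c (hS' h1)).2 h1

/-- **The automorphism group of the tree of Young–Fibonacci paths.**  There is a bijection `Φ` from the
set of all sets `S` of switch vertices (the chains that end with a word `2^k 1`) onto the set of all
automorphisms of the unlabelled tree `T`, such that

* `Φ S` is the map `α_S`: the chain `x_0 ⋖ ⋯ ⋖ x_n` goes to the chain `x_0' ⋖ ⋯ ⋖ x_n'` in which `x_i'` is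
  the twin of `x_i` (`u2` and `u11` are exchanged) if the last switch vertex among
  `x_0 ⋖ ⋯ ⋖ x_j`, `j < i`, exists and is in `S`, and `x_i' = x_i` otherwise;
* the composition is given by `Φ S ∘ Φ S' = Φ (S' ∆ α_{S'}⁻¹(S))`, `∆` the symmetric difference. -/
theorem result : ∃ Φ : {S : Set (List Word) // S ⊆ Switches} ≃ (T ≃g T),
    (∀ S (c : Vertex), (Φ S c).1 = alpha S.1 c.1) ∧
    ∀ S S', (Φ.symm ((Φ S').trans (Φ S))).1 = symmDiff S'.1 (alpha S'.1 ⁻¹' S.1) := by
  have hinj : Function.Injective
      (fun S : {S : Set (List Word) // S ⊆ Switches} => Phi S.1) := fun S S' h =>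
    Subtype.ext (phi_injective S.2 S'.2 h)
  have hsurj : Function.Surjective
      (fun S : {S : Set (List Word) // S ⊆ Switches} => Phi S.1) := by
    intro φ
    refine ⟨⟨swset φ, swset_subset φ⟩, ?_⟩
    apply DFunLike.ext
    intro c
    apply Subtype.ext
    exact (fn_eq_alpha φ c.2).symm.trans (fn_eq φ c.2)
  refine ⟨Equiv.ofBijective _ ⟨hinj, hsurj⟩, fun S c => rfl, fun S S' => ?_⟩
  have h : Equiv.ofBijective _ ⟨hinj, hsurj⟩
      ⟨symmDiff S'.1 (alpha S'.1 ⁻¹' S.1), symmDiff_subset S.2 S'.2⟩ =
      ((Equiv.ofBijective _ ⟨hinj, hsurj⟩ S').trans (Equiv.ofBijective _ ⟨hinj, hsurj⟩ S)) := by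
    apply DFunLike.ext
    intro c
    exact Subtype.ext (alpha_comp S.1 S'.1 c.1)
  rw [← h, Equiv.symm_apply_apply]

end Pool.Agent.Results.MP_ac28de_co.PathTreeAutomorphisms
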